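import Pool.Agent.W620.KT.Main
import Pool.Agent.W620.KT.Exists
import Pool.Agent.W620.KT.Unique

/-!
# Exactly `k`-to-one continuous maps between finite graphs: a necessary and sufficient condition

Let `G`, `H` be finite multigraphs, `H` without loops, and let `X`, `Y` be the topological graphs
that they define.  For `k > 1` we characterise the existence of a continuous map `X → Y` all of whose
fibres have exactly `k` points.  It exists if and only if one can insert new vertices on the edges
of `H`, at least one on every edge and at most `|V(G)| + |E(H)|` in total, and new vertices on the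
edges of `G`, and find a map `φ` from the vertices of the subdivision of `G` to the vertices of the
subdivision of `H` with fibres of exactly `k` elements such that the numbers `c y y'` of edges
joining the fibres over `y` and `y'` satisfy

* `c y y' = 0` if `y ≠ y'` are not adjacent;
* `c y y' ≤ k` and `c y y' ≡ k (mod 2)` if `y`, `y'` are adjacent;
* the number of neighbours `y'` of `y` with `c y y' = 0` is at most `c y y`, and
  `2 c y y + ∑ c y y' ≤ k · deg y`, the sum running over the neighbours `y'` of `y`.

If `A` is the adjacency matrix of the subdivision of `G` and `P` is the `0/1`-matrix of `φ`, then the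
numbers `c y y'`, `y ≠ y'`, are the entries of `Pᵀ A P` and the `c y y` are half of its diagonal
entries.  The number of new vertices is bounded (for `G` it is determined by `φ` being `k`-to-one), so
the condition is a finite check on `k`, `G`, `H`.

Proof.  Given a map, take as new vertices of `H` the images of the vertices of `G` and one more point
on every edge, and as new vertices of `G` their preimages.  Every open edge of `G` then goes into one
open edge of `H`; the value `t` near an end of that edge is taken at least once by every germ of an
edge of `G` at that end, and for a value `t` which is not a local extremum the number of preimages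
has the parity of the number of these germs.  Conversely, the edges of `G` inside a fibre are
distributed over the edges of `H`, and one germ at every end of every edge of `H` is replaced by an
infinite zigzag which takes all values `2d+1` times.
-/

open Set Topology

namespace Pool.Agent.Results.MP_cde9db_gt.KToOneCriterion

universe u v w x y z

/-- A multigraph with vertex set `V` and edge set `E`: every edge has a first and a second end
(loops and multiple edges are allowed; the order of the two ends plays no role). -/
structure Multigraph (V : Type u) (E : Type v) where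
  /-- the first end of an edge -/
  fst : E → V
  /-- the second end of an edge -/
  snd : E → V

/-- The space `X` is presented as the topological graph of the multigraph `G`: the vertices are
distinct points of `X`, the edge `e` is a path in `X` from its first to its second end, the open
edges are injective, pairwise disjoint and disjoint from the vertices, and `X` is the union of the
vertices and the edges.  For finite `G` and Hausdorff `X` this determines `X` up to homeomorphism:
`X` is obtained from `G` by replacing every edge with an arc (see `result`). -/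
structure TopGraph {V : Type u} {E : Type v} (G : Multigraph V E) (X : Type w)
    [TopologicalSpace X] where
  /-- the vertices -/
  vert : V → X
  /-- the edges, parametrised by `[0,1]` (the values outside `[0,1]` are irrelevant) -/
  edge : E → ℝ → X
  cont : ∀ e, ContinuousOn (edge e) (Icc 0 1)
  vert_inj : Function.Injective vert
  edge_zero : ∀ e, edge e 0 = vert (G.fst e)
  edge_one : ∀ e, edge e 1 = vert (G.snd e)
  edge_inj : ∀ e e' s t, s ∈ Ioo (0 : ℝ) 1 → t ∈ Ioo (0 : ℝ) 1 → edge e s = edge e' t →
    e = e' ∧ s = t
  edge_ne : ∀ e s v, s ∈ Ioo (0 : ℝ) 1 → edge e s ≠ vert v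
  cover : ∀ x, (∃ v, vert v = x) ∨ ∃ e, ∃ s ∈ Ioo (0 : ℝ) 1, edge e s = x

/-- exactly `k`-to-one maps: continuous surjections all of whose fibres have exactly `k` points -/
def IsKToOne {X : Type w} {Y : Type z} [TopologicalSpace X] [TopologicalSpace Y] (k : ℕ)
    (f : X → Y) : Prop :=
  Continuous f ∧ Function.Surjective f ∧ ∀ y, (f ⁻¹' {y}).Finite ∧ (f ⁻¹' {y}).ncard = k

/-- the `j`-th vertex along the edge `e`, for `0 ≤ j ≤ n e + 1`, when `e` carries `n e` new vertices:
first the first end of `e`, then the new vertices `(e, 0), (e, 1), ..., (e, n e - 1)`, then the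
second end of `e` -/
def Multigraph.along {V : Type u} {E : Type v} (G : Multigraph V E) (n : E → ℕ) (e : E) (j : ℕ) :
    V ⊕ (Σ e, Fin (n e)) :=
  if j = 0 then Sum.inl (G.fst e)
  else if h : j - 1 < n e then Sum.inr ⟨e, ⟨j - 1, h⟩⟩ else Sum.inl (G.snd e)

/-- the subdivision of `G` with `n e` new vertices on the edge `e`: the edge `e` is replaced by the
`n e + 1` edges joining consecutive vertices along `e` -/
def Multigraph.subdivide {V : Type u} {E : Type v} (G : Multigraph V E) (n : E → ℕ) :
    Multigraph (V ⊕ (Σ e, Fin (n e))) (Σ e, Fin (n e + 1)) where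
  fst := fun ε => G.along n ε.1 ε.2
  snd := fun ε => G.along n ε.1 (ε.2 + 1)

open Classical in
/-- `G.between φ y y'`: the number of edges of `G` with one end over `y` and the other over `y'`; if
`y = y'`, this is the number of edges with both ends over `y` -/
noncomputable def Multigraph.between {V : Type u} {E : Type v} {W : Type w} [Fintype E]
    (G : Multigraph V E) (φ : V → W) (y y' : W) : ℕ :=
  (Finset.univ.filter (fun e : E => (φ (G.fst e) = y ∧ φ (G.snd e) = y') ∨
    (φ (G.fst e) = y' ∧ φ (G.snd e) = y))).card

/-- `y` and `y'` are joined by an edge -/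
def Multigraph.Adj {V : Type u} {E : Type v} (H : Multigraph V E) (y y' : V) : Prop :=
  ∃ e, (H.fst e = y ∧ H.snd e = y') ∨ (H.fst e = y' ∧ H.snd e = y)

open Classical in
/-- the conditions on a map `φ` from the vertices of `G` to the vertices of `H` -/
structure Admissible {V : Type u} {E : Type v} {V' : Type x} {E' : Type y} [Fintype V]
    [Fintype E] [Fintype V'] (k : ℕ) (G : Multigraph V E) (H : Multigraph V' E')
    (φ : V → V') : Prop where
  /-- every fibre of `φ` has `k` elements -/
  fib : ∀ y, (Finset.univ.filter (fun v => φ v = y)).card = k
  /-- no edge joins the fibres over distinct non-adjacent vertices -/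
  far : ∀ y y', y ≠ y' → ¬ H.Adj y y' → G.between φ y y' = 0
  /-- the number of edges joining the fibres over two adjacent vertices -/
  adj : ∀ y y', H.Adj y y' → G.between φ y y' ≤ k ∧ G.between φ y y' % 2 = k % 2
  /-- lower bound for the number of edges inside a fibre -/
  inner_ge : ∀ y, (Finset.univ.filter (fun y' => H.Adj y y' ∧ G.between φ y y' = 0)).card ≤
    G.between φ y y
  /-- upper bound for the number of edges inside a fibre -/
  inner_le : ∀ y, 2 * G.between φ y y + ∑ y' ∈ Finset.univ.filter (fun y' => H.Adj y y'),
    G.between φ y y' ≤ k * (Finset.univ.filter (fun y' => H.Adj y y')).card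

/-- the combinatorial condition on `k`, `G` and `H` -/
def Criterion {V : Type u} {E : Type v} {V' : Type x} {E' : Type y} [Fintype V]
    [Fintype E] [Fintype V'] [Fintype E'] (k : ℕ) (G : Multigraph V E)
    (H : Multigraph V' E') : Prop :=
  ∃ (m : E → ℕ) (n : E' → ℕ), (∀ e, 1 ≤ n e) ∧
    ∑ e, n e ≤ Fintype.card V + Fintype.card E' ∧
    Fintype.card V + ∑ e, m e = k * (Fintype.card V' + ∑ e, n e) ∧
    ∃ φ, Admissible k (G.subdivide m) (H.subdivide n) φ

section transfer

variable {V : Type u} {E : Type v} {V' : Type x} {E' : Type y}

/-- the same multigraph in the library -/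
def Multigraph.lib (G : Multigraph V E) : W620.KT.MGraph V E := ⟨G.fst, G.snd⟩

/-- the same structure in the library -/
def TopGraph.lib {G : Multigraph V E} {X : Type w} [TopologicalSpace X] (R : TopGraph G X) :
    W620.KT.GSpace G.lib X :=
  ⟨R.vert, R.edge, R.cont, R.vert_inj, R.edge_zero, R.edge_one, R.edge_inj, R.edge_ne, R.cover⟩

/-- back from the library -/
def ofLib {G : Multigraph V E} {X : Type w} [TopologicalSpace X] (R : W620.KT.GSpace G.lib X) :
    TopGraph G X :=
  ⟨R.vert, R.edge, R.cont, R.vert_inj, R.edge_zero, R.edge_one, R.edge_inj, R.edge_ne, R.cover⟩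

lemma admissible_iff [Fintype V] [Fintype E] [Fintype V'] (k : ℕ) (G : Multigraph V E)
    (H : Multigraph V' E') (φ : V → V') :
    W620.KT.Admissible k G.lib H.lib φ ↔ Admissible k G H φ :=
  ⟨fun h => ⟨h.fib, h.far, h.adj, h.inner_ge, h.inner_le⟩,
    fun h => ⟨h.fib, h.far, h.adj, h.inner_ge, h.inner_le⟩⟩

open Classical in
lemma card_vertices [Fintype V] [Fintype V'] {k : ℕ} {φ : V → V'}
    (h : ∀ y, (Finset.univ.filter (fun v => φ v = y)).card = k) :
    Fintype.card V = k * Fintype.card V' := by
  have h1 := Finset.card_eq_sum_card_fiberwise (f := φ) (s := (Finset.univ : Finset V))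
    (t := (Finset.univ : Finset V')) (fun _ _ => Finset.mem_coe.2 (Finset.mem_univ _))
  rw [Finset.card_univ] at h1
  rw [h1, Finset.sum_congr rfl (fun y _ => h y), Finset.sum_const, Finset.card_univ, smul_eq_mul,
    mul_comm]

end transfer

/-- Every finite multigraph `G` has a topological graph, unique up to homeomorphism; and for `k > 1`,
finite multigraphs `G` and `H`, `H` without loops, and their topological graphs `X` and `Y`, there is
an exactly `k`-to-one continuous map from `X` onto `Y` if and only if `k`, `G`, `H` satisfy the
combinatorial condition `Criterion`. -/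
theorem result {V : Type u} {E : Type v} {V' : Type x} {E' : Type y} [Fintype V] [Fintype E]
    [Fintype V'] [Fintype E'] (k : ℕ) (hk : 1 < k) (G : Multigraph V E) (H : Multigraph V' E')
    (hH : ∀ e, H.fst e ≠ H.snd e) :
    (∃ (X : Type (max u v)) (_ : TopologicalSpace X), T2Space X ∧ Nonempty (TopGraph G X)) ∧
    (∀ (X : Type w) (X' : Type w) [TopologicalSpace X] [TopologicalSpace X'] [T2Space X]
      [T2Space X'], TopGraph G X → TopGraph G X' → Nonempty (X ≃ₜ X')) ∧
    ∀ (X : Type w) (Y : Type z) [TopologicalSpace X] [TopologicalSpace Y] [T2Space X] [T2Space Y],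
      TopGraph G X → TopGraph H Y → ((∃ f : X → Y, IsKToOne k f) ↔ Criterion k G H) := by
  classical
  refine ⟨?_, ?_, ?_⟩
  · obtain ⟨X, hX, hT, ⟨R⟩⟩ := W620.KT.exists_gspace G.lib
    exact ⟨X, hX, hT, ⟨ofLib R⟩⟩
  · intro X X' _ _ _ _ R S
    exact W620.KT.gspace_unique R.lib S.lib
  · intro X Y _ _ _ _ R S
    have hmain := W620.KT.criterion (X := X) (Y := Y) k hk.le (H := H.lib) hH R.lib S.lib
    constructor
    · rintro ⟨f, hf, _, hfib⟩
      obtain ⟨m, n, hn, hle, φ, hA⟩ := hmain.1 ⟨f, hf, fun y => (hfib y).2⟩
      have hA' : Admissible k (G.subdivide m) (H.subdivide n) φ :=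
        (admissible_iff k (G.subdivide m) (H.subdivide n) φ).1 hA
      refine ⟨m, n, hn, hle, ?_, φ, hA'⟩
      have := card_vertices hA'.fib
      simpa using this
    · rintro ⟨m, n, hn, hle, _, φ, hA⟩
      obtain ⟨f, hf, hfib⟩ := hmain.2 ⟨m, n, hn, hle, φ,
        (admissible_iff k (G.subdivide m) (H.subdivide n) φ).2 hA⟩
      refine ⟨f, hf, ?_, fun y => ⟨?_, hfib y⟩⟩
      · intro y
        have h1 : (f ⁻¹' {y}).Nonempty := by
          rw [nonempty_iff_ne_empty]
          intro h0
          have := hfib y
          rw [h0, ncard_empty] at this
          omega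
        obtain ⟨x, hx⟩ := h1
        exact ⟨x, hx⟩
      · refine finite_of_ncard_ne_zero ?_
        rw [hfib]
        omega

end Pool.Agent.Results.MP_cde9db_gt.KToOneCriterion
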